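import Mathlib
import Pool.Agent.W987.DagMain

/-!
# MP_e46137_lc: reachability in acyclic digraphs without a forbidden induced subdigraph

`Merge` is the digraph of two infinite directed paths that merge in a vertex, `Branch` its reverse.
Reachability in the finite acyclic digraphs that do not contain the digraph `H` is expressed by one
formula of `FO(STC)` (hence it is in deterministic logarithmic space) if `H` is an induced
subdigraph of `Merge` or of `Branch`, and it is complete for nondeterministic logarithmic space,
under first-order interpretations, if some connected induced subdigraph of `H`, for example a
connected component, is neither. For connected `H` exactly one of the two cases applies.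

The proof of definability rests on the following: if no two directed paths with `k` arcs merge in a
vertex `w` of a finite acyclic digraph, then some in-neighbour of `w` is reached within distance
`4 k - 1` from all vertices at distance `k` from `w`.
-/

namespace Pool.Agent.Results.MP_e46137_lc.AcyclicDichotomy

open Relation Pool.Agent.H534R2 Pool.Agent.W987

/-- (1) For all `k` and `m` one formula of `FO(STC)` implies reachability of `d` from `s` in all
digraphs, and it holds for all `s` and `d` with `d` reachable from `s` in finite digraphs such that
no closed walk passes through a vertex that reaches `d`, and at most `m` vertices of a walk to `d`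
are merges of two induced directed paths with `k` arcs (or the mirror condition for `s`).
(2) If `H` is an induced subdigraph of `Merge` or `Branch`, then one formula of `FO(STC)` defines
reachability in all finite acyclic digraphs without induced `H`.
(3) If `H` has a connected induced subdigraph `K` which is an induced subdigraph of neither, then
first-order interpretations reduce reachability in all finite ordered digraphs to reachability in
the acyclic digraphs without induced `H`. -/
theorem result :
    (∀ k m : ℕ, ∃ φ : Fm 2, ∀ (V : Type) (E : V → V → Prop) (s d : V),
      (φ.Holds E ![s, d] → ReflTransGen E s d) ∧
      (Finite V → FewMerges E k m d ∨ FewBranches E k m s → ReflTransGen E s d →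
        φ.Holds E ![s, d])) ∧
    (∀ (n : ℕ) (H : Fin n → Fin n → Prop), Contains Merge H ∨ Contains Branch H →
      Definable (fun V E => Finite V ∧ Acyclic E ∧ ¬ Contains E H)) ∧
    (∀ (n : ℕ) (H : Fin n → Fin n → Prop) (k : ℕ) (K : Fin k → Fin k → Prop), Contains H K →
      (∀ a b, EqvGen K a b) → ¬ (Contains Merge K ∨ Contains Branch K) →
      OHard (fun _ E => Acyclic E ∧ ¬ Contains E H)) := by
  refine ⟨exists_merge_formula, fun n H h => definable_free h, fun n H k K hHK hc hK => ?_⟩
  obtain ⟨T, hT, ψ, a, b, h⟩ := ohard_free hc hK
  exact ⟨T, hT, ψ, a, b, fun N E =>
    ⟨⟨(h N E).1.1, fun h' => (h N E).1.2 (h'.trans hHK)⟩, (h N E).2⟩⟩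

end Pool.Agent.Results.MP_e46137_lc.AcyclicDichotomy
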