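import Mathlib
import Pool.Agent.W987.TreeBound

/-!
# Monotone undirected networks whose contacts have decision trees of depth `n ^ (2 - ε)`

An undirected network decides whether `t` can be reached from `s` in a digraph with `n` vertices.
The contact between two nodes may be any monotone function of the digraph which has a decision tree
of depth at most `n ^ 2 / f`, querying the adjacency matrix adaptively. Then the network has at
least `2 ^ (c (log f) ^ 2)` nodes, where `c` is an absolute constant; hence `n ^ Ω(log n)` nodes if
the contacts have decision trees of depth `n ^ (2 - ε)`, while two nodes and one contact with a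
decision tree of depth `n ^ 2` are enough.
-/

namespace Pool.Agent.Results.MP_e46137_lc.DecisionTreeContacts

open Pool.Agent.W987 Relation

theorem result (V Q : Type) [Fintype V] [Fintype Q] (s t : V) (hst : s ≠ t)
    (τ : Q → Q → DT (V × V)) (a b : Q)
    (hmono : ∀ x y (G G' : V → V → Prop), (∀ u v, G u v → G' u v) →
      (τ x y).eval (fun p => G p.1 p.2) → (τ x y).eval (fun p => G' p.1 p.2))
    (hdec : ∀ G : V → V → Prop, EqvGen (fun x y => (τ x y).eval (fun p => G p.1 p.2)) a b ↔
      ReflTransGen G s t)
    (f : ℕ) (hdepth : ∀ x y, (τ x y).depth * f ≤ Fintype.card V ^ 2) :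
    f ^ Nat.log 2 f ≤ Fintype.card Q ^ 2 ^ 22 :=
  tree_bound hst τ a b hmono hdec f hdepth

end Pool.Agent.Results.MP_e46137_lc.DecisionTreeContacts
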