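import Pool.Agent.W896.CN.NFA

/-!
# Nondeterministic computations which reject must read often

The acceptance problem for nondeterministic finite automata (given an automaton `A` and a word `w`,
is `w` accepted by `A`?) is complete for nondeterministic logarithmic space. A nondeterministic
machine solves it with logarithmic space while it reads every letter of `w` only once.

We consider the complementary problem, on Boolean circuits with AND gates of fan-in two, OR gates of
any fan-in and negations at the inputs. Such a circuit accepts if and only if it has a proof tree
all of whose leaves are true literals; the formal degree in an input bit is the largest number of
leaves with this bit, that is, the number of times this bit is read. (Circuits of polynomial size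
and polynomial total degree are non-uniform LOGCFL, which contains nondeterministic logarithmic
space; nondeterministic, in particular deterministic branching programs are such circuits.) The
bits of the automaton may be read arbitrarily often. If the total formal degree in the `n` letters
of `w` is at most `k n` then the circuits which decide that `A` does not accept `w` have size
`2 ^ Ω (n)`, for every constant `k`, even if they are chosen at random and find out only with probability
`2 ^ (- n / D)` that a word is not accepted, and even for a fixed automaton with `O (n ^ 2)` states.

So the closure of nondeterministic logarithmic space under complement (Immerman, Szelepcsényi)
needs algorithms that read the letters of the word more than a constant number of times on average,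
whereas nondeterministic acceptance needs one time; and the same holds for all deterministic
algorithms, whose complement is as easy.

Proof. The automaton guesses a clause of a formula `F` in conjunctive normal form and checks that it
is violated by the word. There are formulas `F` of linear size with clauses of constant size the
models of which are dense but do not contain a large combinatorial rectangle
(`Pool.Agent.H554R2.Lin.exists_cnf` of the starting files). A circuit of small degree covers its
accepted inputs by few rectangles: a proof tree consists of `O (k ^ 2)` pieces which depend on
few bits, and after a random colouring of the pieces with two colours a constant fraction of the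
bits belongs to red pieces only, and to blue pieces only (`Pool.Agent.W896.RK`).
-/

set_option autoImplicit false

namespace Pool.Agent.Results.MP_e46137_lc.FormalDegree

open Pool.Agent.W896.RK Pool.Agent.W896.CN

/-- For every `k` there is a constant `D` such that for all `n` and `m ≥ D (n + 1) ^ 2` there is a
nondeterministic automaton `A` with `m` states such that for every finite nonempty family `U r` of
circuits whose inputs are the bits of an automaton with `m` states and of a word of length `n`: if
no `U r` accepts `A` with a word accepted by `A`, and `A` with any word not accepted by `A` is
accepted by at least a `2 ^ (- ⌊n / D⌋)` fraction of the `U r`, and if in each `U r` the sum of the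
formal degrees in the letters of the word is at most `k n`, then `n ≤ D (⌊log₂ s⌋ + 1)` for some
`U r`, where `s` is the number of its gates. -/
theorem result (k : ℕ) : ∃ D : ℕ, 0 < D ∧ ∀ n m : ℕ, D * (n + 1) ^ 2 ≤ m →
    ∃ A : NFA Bool (Fin m), ∀ (R : Type) [Fintype R] [Nonempty R] (U : R → Circ (Bit m n)),
      (∀ r w, (U r).Val (bitsOf A w) (U r).out → List.ofFn w ∉ A.accepts) →
      (∀ w : Fin n → Bool, List.ofFn w ∉ A.accepts →
        Nat.card R ≤ 2 ^ (n / D) * Nat.card {r // (U r).Val (bitsOf A w) (U r).out}) →
      (∀ r, ∃ d : (U r).G → Fin n → ℕ, IsDeg (U r) Bit.word d ∧ ∑ i, d (U r).out i ≤ k * n) →
      ∃ r, n ≤ D * (Nat.log 2 (Fintype.card (U r).G) + 1) :=
  nfa_degree k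

end Pool.Agent.Results.MP_e46137_lc.FormalDegree
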