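import Pool.Agent.W896.HB.Reach

/-!
# Reachability on machines with a stack: a trade-off between head movement and memory

The model is a non-uniform nondeterministic program with `k` two-way heads on the adjacency matrix,
`s` nodes (a memory of `log s` bits) and a stack (pushdown store) of unlimited height; the number
of steps is unlimited too. Without the stack, and with polynomially many nodes, this is
(non-uniform) nondeterministic logarithmic space, and the deterministic programs are deterministic
logarithmic space. Reachability in directed graphs is complete for nondeterministic logarithmic
space. The theorem concerns undirected graphs, which are special directed graphs; so it holds all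
the more for the programs which solve the reachability problem for directed graphs. It says that the
way `T` of the heads on the adjacency matrix, which is written row by row, satisfies
`T * log s ≥ c n ^ 3`, both for reachability and for non-reachability. So neither a machine for
reachability with logarithmic space, deterministic or not, nor one for its complement (which exists
by the theorem of Immerman and Szelepcsényi) can do with a head movement of less than
`c n ^ 3 / log n` cells, while the matrix has `n ^ 2` cells, and even a stack does not help.

Proof. The number on the forehead method with the generalised inner product (Babai, Nisan and
Szegedy), as in our results on satisfiability and on isomorphism (`MP_8a52c3_lc` and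
`MP_128e7d_lc`, `StackTradeoff`). By Barrington's commutators the conjunction of `2 k + 1` bits
becomes a word over the symmetric group of degree five whose value is an involution or trivial; the
product of these words for all columns depends on the parity of the columns of ones only. In the
open braid with five strands which is made from these permutations the source is joined to the
beginning of the strand `0` and the target to the end at the place `0`: if the product is trivial
then the strand leads from the source to the target; if it is the involution `(0 1) (2 3)` then it
does not.
-/

set_option autoImplicit false

namespace Pool.Agent.Results.MP_e46137_lc.HeadTravel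

open Pool.Agent.W896.HP Pool.Agent.W896.HB

/-- For every number `k` of heads there is a constant `D` such that for all `n ≥ 2` and `T`, for
`Q` the graphs with `n` vertices in which the last vertex is reachable from the first one, or those
in which it is not, and for all finite families `U r` of nondeterministic programs with `k` heads
and a stack, whose input is the adjacency matrix: if no `U r` accepts a graph outside `Q`, and
every graph in `Q` is accepted by at least a `2 ^ (- ⌊n / D⌋)` fraction of the `U r` in a computation
in which the total way of the heads is at most `T`, then some `U r`, with `s` nodes, satisfies
`n ^ 3 ≤ D (T + n ^ 2) (⌊log₂ s⌋ + 1)`. -/
theorem result (k : ℕ) : ∃ D : ℕ, 0 < D ∧ ∀ (n T : ℕ) (hn : 2 ≤ n)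
    (Q : SimpleGraph (Fin n) → Prop),
    ((Q = fun G => G.Reachable ⟨0, by omega⟩ ⟨n - 1, by omega⟩) ∨
      (Q = fun G => ¬ G.Reachable ⟨0, by omega⟩ ⟨n - 1, by omega⟩)) →
    ∀ (R : Type) [Fintype R] [Nonempty R] (U : R → Prog (Fin k) (Fin n × Fin n)),
      (∀ r G l, (U r).Acc (mat G) l → Q G) →
      (∀ G, Q G → Nat.card R ≤ 2 ^ (n / D) *
        Nat.card {r // ∃ l, (U r).Acc (mat G) l ∧ travel cellAt l ≤ T}) →
      ∃ r, n ^ 3 ≤ D * ((T + n ^ 2) * (Nat.log 2 (Fintype.card (U r).State) + 1)) :=
  reach_stack k

end Pool.Agent.Results.MP_e46137_lc.HeadTravel
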