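import Mathlib
import Pool.Agent.W987.InBd

/-!
# Directed reachability and independence numbers of boundaries of reachable sets

(1) For every `k` there is one formula of first-order logic with symmetric transitive closure,
`FO(STC)`, which holds for all pairs `(s, t)` such that `t` can be reached from `s`, in all
digraphs, and which in finite digraphs holds for no other pair `(s, t)` if among the vertices
outside the set of the vertices reachable from `s` with an arc into this set at most `k` are
pairwise non-adjacent, or if this holds for the vertices that have an arc from the set of the
vertices which reach `t` and do not belong to it.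

(2) Consequently reachability is expressed by one `FO(STC)` formula on the finite digraphs in which
any two in-neighbours of every vertex are adjacent, or any two out-neighbours of every vertex.
This is sharp: a quantifier-free interpretation reduces reachability on all digraphs to the
digraphs in which among any three in-neighbours, and among any three out-neighbours, of a vertex
two are adjacent.

By theorems of Immerman and of Reingold `FO(STC)` queries are computable in deterministic
logarithmic space, and directed reachability is complete for `NLOGSPACE`.
-/

namespace Pool.Agent.Results.MP_e46137_lc.InBoundary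

open Pool.Agent.H534R2 Pool.Agent.W987 Relation

theorem result :
    (∀ k : ℕ, ∃ φ : Fm 2, ∀ (V : Type) (E : V → V → Prop) (s t : V),
      (ReflTransGen E s t → φ.Holds E ![s, t]) ∧
      (Finite V → (IndepLe E (InBd E s) k ∨ IndepLe E (OutBd E t) k) → φ.Holds E ![s, t] →
        ReflTransGen E s t)) ∧
    (∃ φ : Fm 2, ∀ (V : Type) (E : V → V → Prop), Finite V →
      ((∀ v : V, IndepLe E {x | x ≠ v ∧ E x v} 1) ∨ (∀ v : V, IndepLe E {x | x ≠ v ∧ E v x} 1)) →
      ∀ s t : V, φ.Holds E ![s, t] ↔ ReflTransGen E s t) ∧
    Hard (LocalIndep 2 2) := by
  refine ⟨exists_bd_formula, ?_, hard_local⟩
  obtain ⟨φ, hφ⟩ := definable_local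
  exact ⟨φ, fun V E hV h => @hφ V hV E h⟩

end Pool.Agent.Results.MP_e46137_lc.InBoundary
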