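import Mathlib
import Pool.Agent.W987.Dicho

/-!
# Directed reachability and forbidden induced digraphs: `DLOGSPACE` or `NLOGSPACE`-complete

(1) For all `w` and `t` one formula of first-order logic with symmetric transitive closure,
`FO(STC)`, is sound for directed reachability on all digraphs, and complete for all pairs which are
joined by a walk without shortcuts that does not have `t` pairwise non-adjacent `w`-cuts (a step is
a `w`-cut if no arc goes from the `w` vertices after it to the `w` vertices before it).

(2) Consequently reachability is expressed by one `FO(STC)` formula on all digraphs without `t`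
disjoint, pairwise non-adjacent directed paths on four vertices.  This is sharp: directed
reachability on all digraphs reduces by a quantifier-free interpretation to the oriented graphs in
which every directed path on five vertices has a chord.

(3) A dichotomy: for every finite digraph `H`, reachability on the digraphs without induced
subdigraph `H` is expressed by one `FO(STC)` formula if the arcs of `H` are pairwise disjoint, and
otherwise reachability on all digraphs reduces to it by a quantifier-free interpretation.

By theorems of Immerman and of Reingold `FO(STC)` queries are computable in deterministic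
logarithmic space, and directed reachability is complete for `NLOGSPACE`.
-/

namespace Pool.Agent.Results.MP_e46137_lc.ZForbiddenPaths

open Pool.Agent.H534R2 Pool.Agent.W987 Relation

theorem result :
    (∀ w t : ℕ, 1 ≤ w → ∃ φ : Fm 2, ∀ (V : Type) (E : V → V → Prop),
      (∀ s d : V, φ.Holds E ![s, d] → ReflTransGen E s d) ∧
      ∀ (p : ℕ → V) (l : ℕ), NoShortcut E p l → ¬ HasCuts E w p l t → φ.Holds E ![p 0, p l]) ∧
    (∀ k t : ℕ, (k ≤ 4 → Definable (fun _ E => ¬ HasPaths E k t)) ∧
      (5 ≤ k → 1 ≤ t → Hard (fun _ E => (∀ a b, E a b → ¬ E b a) ∧ ¬ HasPaths E k t))) ∧
    (∀ (m : ℕ) (H : Fin m → Fin m → Prop),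
      (DisjointArcs H → Definable (fun _ E => ¬ Contains E H)) ∧
      (¬ DisjointArcs H → Hard (fun _ E => ¬ Contains E H))) :=
  ⟨fun w t hw => exists_formula w t hw,
    fun k t => ⟨definable_paths k t, hard_paths k t⟩,
    fun _ _ => ⟨definable_contains, hard_contains⟩⟩

end Pool.Agent.Results.MP_e46137_lc.ZForbiddenPaths
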